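import Pool.Agent.H43.As1
import Pool.Agent.H43.Sp1

open Set Metric Filter Topology Module MeasureTheory Pool.Agent.H43 Pool.Agent.H43.As

namespace Pool.Agent.Results.MP_c72560_an.Cex

def Inv (A : Set ℝ) : Prop :=
  IsClosed A ∧ 1 ∈ A ∧ ∀ x ∈ A, 1 / 8 * x ∈ A ∧ 1 / 9 * x ∈ A ∧ 1 / 8 * x + 7 / 8 ∈ A

def K : Set ℝ := ⋂₀ {A | Inv A}

lemma inv_K : Inv K := ⟨isClosed_sInter fun _ h => h.1, fun _ h => h.2.1, fun x hx =>
  ⟨fun A h => (h.2.2 x (hx A h)).1, fun A h => (h.2.2 x (hx A h)).2.1, fun A h => (h.2.2 x (hx A h)).2.2⟩⟩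

lemma K_sub : K ⊆ Icc 0 1 := sInter_subset_of_mem ⟨isClosed_Icc, by simp, fun x hx => by
  refine ⟨⟨?_, ?_⟩, ⟨?_, ?_⟩, ?_, ?_⟩ <;> linarith [hx.1, hx.2]⟩

lemma K_cpt : IsCompact K := isCompact_Icc.of_isClosed_subset inv_K.1 K_sub

lemma K_dec : K ⊆ (fun x => 1 / 8 * x) '' K ∪ (fun x => 1 / 9 * x) '' K ∪
    (fun x => 1 / 8 * x + 7 / 8) '' K := by
  refine sInter_subset_of_mem ⟨(((K_cpt.image (by fun_prop)).union (K_cpt.image (by fun_prop))).union
    (K_cpt.image (by fun_prop))).isClosed, Or.inr ⟨1, inv_K.2.1, by norm_num⟩, fun x hx => ?_⟩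
  have : x ∈ K := by
    rcases hx with (⟨y, h, rfl⟩ | ⟨y, h, rfl⟩) | ⟨y, h, rfl⟩
    exacts [(inv_K.2.2 y h).1, (inv_K.2.2 y h).2.1, (inv_K.2.2 y h).2.2]
  exact ⟨Or.inl (Or.inl ⟨x, this, rfl⟩), Or.inl (Or.inr ⟨x, this, rfl⟩), Or.inr ⟨x, this, rfl⟩⟩

lemma K_dim : dimH K < 1 := by
  have hs : (0 : ℝ) < 2 / 3 := by norm_num
  refine (Sp.dim_le hs ?_).trans_lt (ENNReal.ofReal_lt_one.2 (by norm_num))
  have e : (1 / 8 : ℝ) ^ (2 / 3 : ℝ) = 1 / 4 := by
    rw [show (1 / 8 : ℝ) = (1 / 2) ^ (3 : ℝ) by norm_num, ← Real.rpow_mul (by norm_num)]; norm_num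
  have a : ∀ c b : ℝ, |c| ≤ 1 / 8 → Sp.h (2 / 3) ((fun x => c * x + b) '' K) ≤
      ENNReal.ofReal (1 / 4) * Sp.h (2 / 3) K := fun c b h => by
    have := Sp.h_scale hs (fun x => c * x + b) id K (K := 1 / 8) (by norm_num) fun x _ y _ => by
      simp only [id, add_sub_add_right_eq_sub, ← mul_sub, abs_mul]; gcongr
    rwa [image_id, e] at this
  have a1 := a (1 / 8) 0 (by norm_num [abs_of_pos])
  have a2 := a (1 / 9) 0 (by norm_num [abs_of_pos])
  have a3 := a (1 / 8) (7 / 8) (by norm_num [abs_of_pos])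
  simp only [add_zero] at a1 a2
  have h2 := (measure_mono (μ := Sp.h (2 / 3)) K_dec).trans ((measure_union_le _ _).trans
    (add_le_add ((measure_union_le _ _).trans (add_le_add a1 a2)) a3))
  rw [← add_mul, ← add_mul, ← ENNReal.ofReal_add (by norm_num) (by norm_num),
    ← ENNReal.ofReal_add (by norm_num) (by norm_num)] at h2
  have h3 : Sp.h (2 / 3) K ≠ ⊤ := ne_top_of_le_ne_top ENNReal.ofReal_ne_top
    (Sp.h_Icc hs zero_le_one K_sub)
  by_contra c
  exact absurd h2 (not_le.2 (by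
    simpa using ENNReal.mul_lt_mul_left c h3 (ENNReal.ofReal_lt_one.2 (by norm_num))))

lemma K_pow (i j : ℕ) : (1 / 8 : ℝ) ^ i * (1 / 9) ^ j ∈ K := by
  induction i with
  | zero =>
    induction j with
    | zero => simpa using inv_K.2.1
    | succ j ih => simpa [pow_succ'] using (inv_K.2.2 _ ih).2.1
  | succ i ih => rw [pow_succ', mul_assoc]; exact (inv_K.2.2 _ ih).1

lemma exp_bd {s t : ℝ} (hs : |s| ≤ Real.log 9) (ht : |t| ≤ Real.log 9) :
    |s - t| / 9 ≤ |Real.exp s - Real.exp t| ∧ |Real.exp s - Real.exp t| ≤ 9 * |s - t| := by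
  wlog h : t ≤ s generalizing s t
  · rw [abs_sub_comm s, abs_sub_comm (Real.exp s)]; exact this ht hs (le_of_not_ge h)
  have a : Real.exp s ≤ 9 := (Real.le_log_iff_exp_le (by norm_num)).1 (abs_le.1 hs).2
  have b : 1 / 9 ≤ Real.exp t := by
    have := Real.exp_le_exp.2 (abs_le.1 ht).1
    rwa [Real.exp_neg, Real.exp_log (by norm_num), ← one_div] at this
  have c := mul_le_mul_of_nonneg_right (Real.add_one_le_exp (s - t)) (Real.exp_pos t).le
  have d := mul_le_mul_of_nonneg_right (Real.add_one_le_exp (t - s)) (Real.exp_pos s).le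
  rw [← Real.exp_add, sub_add_cancel] at c d
  rw [abs_of_nonneg (sub_nonneg.2 h), abs_of_nonneg (sub_nonneg.2 (Real.exp_le_exp.2 h))]
  constructor <;> nlinarith

lemma prog (N : ℕ) (hN : 1 ≤ N) : ∃ y > 0, ∃ θ : ℝ, θ ≠ 0 ∧ N * |θ| ≤ Real.log 9 ∧
    ∀ j ≤ N, y * Real.exp (j * θ) ∈ K := by
  have l9 : 0 < Real.log 9 := Real.log_pos (by norm_num)
  have l8 : 0 < Real.log 8 := Real.log_pos (by norm_num)
  obtain ⟨p, p0, -, hp⟩ := Real.exists_nat_abs_mul_sub_round_le (Real.log 8 / Real.log 9) hN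
  obtain ⟨q, hq⟩ := Int.eq_ofNat_of_zero_le (a := round (p * (Real.log 8 / Real.log 9)))
    (by rw [round_eq]; exact Int.floor_nonneg.2 (by positivity))
  rw [hq, Int.cast_natCast, le_div_iff₀ (by positivity)] at hp
  refine ⟨(1 / 9) ^ (N * q), by positivity, q * Real.log 9 - p * Real.log 8, fun h => ?_, ?_,
    fun j hj => ?_⟩
  · rw [sub_eq_zero, ← Real.log_pow, ← Real.log_pow] at h
    have h1 : 9 ^ q = 8 ^ p := by
      exact_mod_cast Real.log_injOn_pos (by simp) (by simp) h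
    have := (Odd.pow (n := q) (show Odd 9 by decide))
    rw [h1] at this
    exact Nat.not_even_iff_odd.2 this ((show Even 8 by decide).pow_of_ne_zero p0.ne')
  · rw [show q * Real.log 9 - p * Real.log 8 = -(p * (Real.log 8 / Real.log 9) - q) * Real.log 9 by
      field_simp; ring, abs_mul, abs_neg, abs_of_pos l9, ← mul_assoc]
    exact mul_le_of_le_one_left l9.le (by nlinarith [abs_nonneg (p * (Real.log 8 / Real.log 9) - q)])
  · obtain ⟨i, rfl⟩ := Nat.exists_eq_add_of_le hj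
    have := K_pow (j * p) (i * q)
    rw [Real.exp_nat_mul, Real.exp_sub, Real.exp_nat_mul, Real.exp_nat_mul,
      Real.exp_log (by norm_num), Real.exp_log (by norm_num)]
    have e : (1 / 9 : ℝ) ^ ((j + i) * q) * (9 ^ q / 8 ^ p) ^ j = (1 / 8) ^ (j * p) * (1 / 9) ^ (i * q) := by
      simp only [add_mul, pow_add, one_div, inv_pow, div_pow, ← pow_mul, mul_comm p, mul_comm q]
      field_simp
    rw [e]; exact this

theorem result : ∃ (c : Fin 3 → ℝ) (O : Fin 3 → Iso 3) (t : Fin 3 → E 3) (F : Set (E 3)),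
    SelfSim c O t F ∧ ∃ V₀ : Sub 3, ∀ V : Sub 3, rank V = 2 → V ≠ V₀ →
      dimA (fun _ => True) (proj V '' F) = 1 ∧ dimH (proj V '' F) < 1 := by
  classical
  set e : E 3 := EuclideanSpace.single 0 1
  refine ⟨![1 / 8, 1 / 9, 1 / 8], fun _ => 1, ![0, 0, (7 / 8 : ℝ) • e], (· • e) '' K,
    ⟨fun i => ?_, fun i x hx j => ?_, ⟨_, 1, inv_K.2.1, rfl⟩, K_cpt.image (by fun_prop), ?_, ?_⟩,
    (ℝ ∙ e)ᗮ, fun V hV hV0 => ?_⟩
  · fin_cases i <;> norm_num
  · have := hx j
    fin_cases i <;> fin_cases j <;> simp [e, sim, act] at this ⊢ <;> constructor <;> linarith [this.1, this.2]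
  · rintro _ ⟨x, hx, rfl⟩ j
    have := K_sub hx
    fin_cases j <;> simp [e, this.1, this.2]
  · refine Subset.antisymm ?_ (iUnion_subset fun i => ?_)
    · rintro _ ⟨x, hx, rfl⟩
      rcases K_dec hx with (⟨y, h, rfl⟩ | ⟨y, h, rfl⟩) | ⟨y, h, rfl⟩
      · exact mem_iUnion.2 ⟨0, _, ⟨y, h, rfl⟩, by simp [smul_smul, sim, act]⟩
      · exact mem_iUnion.2 ⟨1, _, ⟨y, h, rfl⟩, by simp [smul_smul, sim, act]⟩
      · exact mem_iUnion.2 ⟨2, _, ⟨y, h, rfl⟩, by simp [smul_smul, add_smul, sim, act]⟩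
    · rintro _ ⟨_, ⟨y, h, rfl⟩, rfl⟩
      have := inv_K.2.2 y h
      fin_cases i
      · exact ⟨_, this.1, by simp [smul_smul, sim, act]⟩
      · exact ⟨_, this.2.1, by simp [smul_smul, sim, act]⟩
      · exact ⟨_, this.2.2, by simp [smul_smul, add_smul, sim, act]⟩
  have e0 : e ≠ 0 := by simp [e]
  change finrank ℝ V = 2 at hV
  set v := V.starProjection e
  have v0 : v ≠ 0 := fun h => hV0 (Submodule.eq_of_le_of_finrank_eq (by
      rw [← V.orthogonal_orthogonal]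
      exact Submodule.orthogonal_le ((Submodule.span_singleton_le_iff_mem _ _).2
        (V.starProjection_apply_eq_zero_iff.1 h))) (by
      have := (ℝ ∙ e).finrank_add_finrank_orthogonal
      rw [finrank_span_singleton e0, finrank_euclideanSpace_fin] at this; omega))
  have ei : proj V '' ((· • e) '' K) = (· • v) '' K := by
    rw [image_image]; simp only [proj, map_smul, v]
  rw [ei]
  have n0 := norm_pos_iff.2 v0
  refine ⟨Nat.cast_one (R := ℝ) ▸ dimA_eq (fun _ _ => trivial) (ℝ ∙ v) (by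
      rintro _ ⟨x, -, rfl⟩; exact Submodule.smul_mem _ _ (Submodule.mem_span_singleton_self v))
    (finrank_span_singleton v0) (K := 91) (by norm_num) fun N hN => ?_,
    ((ContinuousLinearMap.toSpanSingleton ℝ v).lipschitz.dimH_image_le K).trans_lt K_dim⟩
  obtain ⟨y, y0, θ, θ0, h1, h2⟩ := prog N hN
  have t0 := abs_pos.2 θ0
  set f : ℕ → E 3 := fun j => (y * Real.exp (j * θ)) • v
  have b : ∀ j ≤ N, |(j : ℝ) * θ| ≤ Real.log 9 := fun j hj => by
    rw [abs_mul, Nat.abs_cast]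
    exact (mul_le_mul_of_nonneg_right (by exact_mod_cast hj) t0.le).trans h1
  have ds : ∀ i j, dist (f i) (f j) = y * ‖v‖ * |Real.exp (i * θ) - Real.exp (j * θ)| := fun i j => by
    rw [dist_eq_norm, ← sub_smul, ← mul_sub, norm_smul, norm_mul, Real.norm_of_nonneg y0.le,
      Real.norm_eq_abs]; ring
  have yv : 0 < y * ‖v‖ := by positivity
  have sep : ∀ i ∈ Finset.range N, ∀ j ∈ Finset.range N,
      dist (f i) (f j) ≤ y * ‖v‖ * (|θ| / 10) → i = j := fun i hi j hj h => by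
    by_contra c
    rw [ds, mul_le_mul_iff_right₀ yv] at h
    have a := (exp_bd (b i (Finset.mem_range.1 hi).le) (b j (Finset.mem_range.1 hj).le)).1
    have : (1 : ℝ) ≤ |(i : ℝ) - j| := by
      exact_mod_cast Int.one_le_abs (show (i : ℤ) - j ≠ 0 by omega)
    rw [← sub_mul, abs_mul] at a
    nlinarith
  refine ⟨y * ‖v‖ * (|θ| / 10), by positivity, f 0, ⟨_, h2 0 (by omega), rfl⟩,
    (Finset.range N).image f, ?_, ?_, ?_⟩
  · simp only [Finset.coe_image, image_subset_iff]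
    intro j hj
    have hj := (Finset.mem_range.1 hj).le
    refine ⟨?_, _, h2 j hj, rfl⟩
    have a := (exp_bd (b j hj) (b 0 (by omega))).2
    have j1 : (j : ℝ) ≤ N := by exact_mod_cast hj
    have N1 : (1 : ℝ) ≤ N := by exact_mod_cast hN
    rw [← sub_mul, abs_mul, Nat.cast_zero, sub_zero, Nat.abs_cast] at a
    rw [mem_ball, ds, mul_left_comm, Nat.cast_zero]
    exact mul_lt_mul_of_pos_left (by nlinarith) yv
  · rw [Finset.card_image_of_injOn fun i hi j hj h => sep i hi j hj (by rw [h, dist_self]; positivity)]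
    simp
  · simp only [Finset.forall_mem_image]
    intro i hi j hj h; rw [sep i hi j hj h]

end Pool.Agent.Results.MP_c72560_an.Cex
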